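import Pool.Agent.Run7.h412.SP.ZeroSum
import Pool.Agent.Y638.RF.OuMv
import Pool.Agent.Y638.RF.Xor

set_option autoImplicit false

/-! # Products `u_iᵀ M v_i` and span programs -/

namespace Pool.Agent.Run7.h412.SP.OuMv

open Finset Pool.Agent.TH697.Form Pool.Agent.TH697.Row Pool.Agent.TH697.Form.OuMv
open Pool.Agent.Y638.RF
open Pool.Agent.Run7.h412.SP.ZeroSum (one_le_logb)

variable {n c w : ℕ} {K : Type} [Field K] [Fintype K]

/-- the arithmetic for span programs -/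
theorem arith_span {n a c w l s : ℝ} (hn : 32 ≤ n) (ha : 1 ≤ a) (hc : 1 ≤ c) (hw : 1 ≤ w)
    (hl1 : 1 ≤ l) (hs : 0 ≤ s)
    (h : n * n ^ 2 ≤ 4000 * w * (Real.sqrt (a * n ^ 2) +
      (3 + 10 * (6 * l) + 2 * (w - 1) * c)) * s) :
    n ^ 3 ≤ 4000 * w * (n * Real.sqrt a + 63 * (c + l) * w) * s := by
  have e1 : Real.sqrt (a * n ^ 2) = n * Real.sqrt a := by
    rw [Real.sqrt_mul (by linarith), Real.sqrt_sq (by linarith), mul_comm]
  rw [e1] at h
  have h2 : 3 + 10 * (6 * l) + 2 * (w - 1) * c ≤ 63 * (c + l) * w := by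
    have h3 : 0 ≤ (w - 1) * c := mul_nonneg (by linarith) (by linarith)
    have h4 : 0 ≤ (w - 1) * l := mul_nonneg (by linarith) (by linarith)
    nlinarith
  calc n ^ 3 = n * n ^ 2 := by ring
    _ ≤ _ := h
    _ ≤ _ := by
      apply mul_le_mul_of_nonneg_right _ hs
      apply mul_le_mul_of_nonneg_left _ (by linarith)
      linarith

theorem arith_M (hn : 32 ≤ n) {s : ℕ} (hsn : ¬ n ^ 3 ≤ s) :
    4 * n ^ 2 * (2 * s + 1) + 2 + s ≤ n ^ 6 := by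
  have h1 : s < n ^ 3 := by omega
  have h2 : 4 * n ^ 2 * (2 * s + 1) ≤ 4 * n ^ 2 * (2 * n ^ 3) := Nat.mul_le_mul_left _ (by omega)
  have h3 : 4 * n ^ 2 * (2 * n ^ 3) = 8 * n ^ 5 := by ring
  have h4 : n ^ 3 ≤ n ^ 5 := Nat.pow_le_pow_right (by omega) (by norm_num)
  have h5 : 32 * n ^ 5 ≤ n ^ 6 := by
    calc 32 * n ^ 5 ≤ n * n ^ 5 := Nat.mul_le_mul_right _ hn
      _ = n ^ 6 := by ring
  have h6 : 1 ≤ n ^ 5 := Nat.one_le_pow _ _ (by omega)
  omega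

theorem trivial_case {n a c w l s : ℝ} (hn : 32 ≤ n) (hc : 1 ≤ c) (hw : 1 ≤ w)
    (hl1 : 1 ≤ l) (h1 : n ^ 3 ≤ s) :
    n ^ 3 ≤ 4000 * w * (n * Real.sqrt a + 63 * (c + l) * w) * s := by
  have h2 : 0 ≤ n * Real.sqrt a := mul_nonneg (by linarith) (Real.sqrt_nonneg _)
  have h3 : 1 ≤ (c + l) * w := by nlinarith
  have h4 : 1 ≤ 4000 * w * (n * Real.sqrt a + 63 * (c + l) * w) := by nlinarith
  have h5 : 0 ≤ s := le_trans (by positivity) h1
  nlinarith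

theorem bound (hn : 32 ≤ n) (hc : 1 ≤ c) (hw : 1 ≤ w) {Ω : Type} [Fintype Ω] (μ : Ω → ℝ)
    (hμ : IsProb μ) (s : ℕ) (F : Ω → SpanProgram K (Option (Fin n)) (Item n n) w (2 ^ c))
    (hs : ∀ ω, (F ω).size ≤ s)
    (hF : ApproximatesOn μ (fun ω => (F ω).eval) (fun _ => True) (ouMv n n) ∨
      ApproximatesOn μ (fun ω x => !(F ω).eval x) (fun _ => True) (ouMv n n)) :
    (n : ℝ) ^ 3 ≤ 4000 * w * (n * Real.sqrt (Real.logb 2 (Fintype.card K)) +
      63 * (c + Real.logb 2 n) * w) * s := by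
  classical
  have hw' : (1 : ℝ) ≤ w := by exact_mod_cast hw
  have hc' : (1 : ℝ) ≤ c := by exact_mod_cast hc
  have hs0 : (0 : ℝ) ≤ s := Nat.cast_nonneg s
  have hn' : (32 : ℝ) ≤ n := by exact_mod_cast hn
  have ha := one_le_logb K
  obtain ⟨-, hl1⟩ := Pool.Agent.TH457.Ary.OuMv.logb_n hn
  obtain ⟨l, hl'⟩ : ∃ l, l = Real.logb 2 (n : ℝ) := ⟨_, rfl⟩
  rw [← hl'] at hl1 ⊢
  by_cases hsn : n ^ 3 ≤ s
  · exact trivial_case hn' hc' hw' hl1 (by exact_mod_cast hsn)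
  have h := span_bound μ hμ F (fun _ => True) (ouMv n n) hF s hs
    Nat.one_le_two_pow hw (n ^ 2) (n ^ 6) (arith_M hn hsn) 0 (by norm_num)
    ((univ : Finset (Fin n)).map Function.Embedding.some) (T := Fin n × Fin n) (by
      intro a ha
      rw [mem_map] at ha
      obtain ⟨i, -, rfl⟩ := ha
      exact Pool.Agent.Y638.RF.OuMv.asks i) ((n : ℝ) ^ 2) (by nlinarith) (by
      rw [Pool.Agent.TH457.Ary.OuMv.card_T])
  rw [card_map, card_univ, Fintype.card_fin] at h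
  push_cast at h
  rw [Pool.Agent.TH457.Ary.OuMv.logb_two_pow', Real.logb_pow, ← hl'] at h
  push_cast at h
  exact arith_span hn' ha hc' hw' hl1 hs0 h

theorem bound_xor (hn : 32 ≤ n) (hc : 1 ≤ c) (hw : 1 ≤ w) {Ω : Type} [Fintype Ω] (μ : Ω → ℝ)
    (hμ : IsProb μ) (s : ℕ)
    (F : Ω → SpanProgram K (Option (Fin n)) (Pool.Agent.Y638.RF.Xor.Item n) w (2 ^ c))
    (hs : ∀ ω, (F ω).size ≤ s)
    (hF : ApproximatesOn μ (fun ω => (F ω).eval) (fun _ => True)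
        (Pool.Agent.Y638.RF.Xor.product n) ∨
      ApproximatesOn μ (fun ω x => !(F ω).eval x) (fun _ => True)
        (Pool.Agent.Y638.RF.Xor.product n)) :
    (n : ℝ) ^ 3 ≤ 4000 * w * (n * Real.sqrt (Real.logb 2 (Fintype.card K)) +
      63 * (c + Real.logb 2 n) * w) * s := by
  classical
  have hw' : (1 : ℝ) ≤ w := by exact_mod_cast hw
  have hc' : (1 : ℝ) ≤ c := by exact_mod_cast hc
  have hs0 : (0 : ℝ) ≤ s := Nat.cast_nonneg s
  have hn' : (32 : ℝ) ≤ n := by exact_mod_cast hn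
  have ha := one_le_logb K
  obtain ⟨-, hl1⟩ := Pool.Agent.TH457.Ary.OuMv.logb_n hn
  obtain ⟨l, hl'⟩ : ∃ l, l = Real.logb 2 (n : ℝ) := ⟨_, rfl⟩
  rw [← hl'] at hl1 ⊢
  by_cases hsn : n ^ 3 ≤ s
  · exact trivial_case hn' hc' hw' hl1 (by exact_mod_cast hsn)
  have h := span_bound μ hμ F (fun _ => True) (Pool.Agent.Y638.RF.Xor.product n) hF s hs
    Nat.one_le_two_pow hw (n ^ 2) (n ^ 6) (arith_M hn hsn) 0 (by norm_num)
    ((univ : Finset (Fin n)).map Function.Embedding.some) (T := Fin n × Fin n) (by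
      intro a ha
      rw [mem_map] at ha
      obtain ⟨i, -, rfl⟩ := ha
      exact Pool.Agent.Y638.RF.Xor.asks i) ((n : ℝ) ^ 2) (by nlinarith) (by
      rw [Pool.Agent.TH457.Ary.OuMv.card_T])
  rw [card_map, card_univ, Fintype.card_fin] at h
  push_cast at h
  rw [Pool.Agent.TH457.Ary.OuMv.logb_two_pow', Real.logb_pow, ← hl'] at h
  push_cast at h
  exact arith_span hn' ha hc' hw' hl1 hs0 h

end Pool.Agent.Run7.h412.SP.OuMv
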