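import Pool.Agent.Run7.h412.SP.ZeroSum
import Pool.Agent.Y638.RF.NetZT

set_option autoImplicit false

/-! # Triangles of weight zero and span programs -/

namespace Pool.Agent.Run7.h412.SP.ZT

open Finset Pool.Agent.TH697.Form Pool.Agent.TH697.Row
open Pool.Agent.Y638.RF Pool.Agent.Y638.RF.ZT
open Pool.Agent.Run7.h412.SP.ZeroSum (one_le_logb)

variable {n c w : ℕ} {K : Type} [Field K] [Fintype K]

theorem bound (hn : 100 ≤ n) (hc : 1 ≤ c) (hw : 1 ≤ w) {Ω : Type} [Fintype Ω]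
    (μ : Ω → ℝ) (hμ : IsProb μ) (s : ℕ)
    (F : Ω → SpanProgram K (Fin 3 × Fin n × Fin n) (fun _ => ℤ) w (n ^ c))
    (hs : ∀ ω, (F ω).size ≤ s)
    (hF : ApproximatesOn μ (fun ω => (F ω).eval) InRange zeroTri ∨
      ApproximatesOn μ (fun ω x => !(F ω).eval x) InRange zeroTri) :
    (n : ℝ) ^ 3 ≤ 4000 * w * (Real.sqrt (Real.logb 2 (Fintype.card K) * n) +
      53 * c * w * Real.logb 2 n) * s := by
  classical
  have hn' : (100 : ℝ) ≤ n := by exact_mod_cast hn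
  have hw' : (1 : ℝ) ≤ w := by exact_mod_cast hw
  have hc' : (1 : ℝ) ≤ c := by exact_mod_cast hc
  have hs0 : (0 : ℝ) ≤ s := Nat.cast_nonneg s
  obtain ⟨r, hr'⟩ : ∃ r, r = Real.sqrt (Real.logb 2 (Fintype.card K) * n) := ⟨_, rfl⟩
  have hr : 0 ≤ r := by rw [hr']; exact Real.sqrt_nonneg _
  rw [← hr']
  have hl : (6 : ℝ) ≤ Real.logb 2 n := by
    have h11 : ((2 : ℝ)) ^ 6 ≤ n := by linarith
    have h12 := Real.logb_le_logb_of_le (by norm_num : (1 : ℝ) < 2) (by positivity) h11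
    rw [Real.logb_pow, Real.logb_self_eq_one (by norm_num)] at h12
    norm_num at h12
    exact h12
  have hcw : (1 : ℝ) ≤ c * w := by nlinarith
  have hX : (1 : ℝ) ≤ r + 53 * c * w * Real.logb 2 n := by nlinarith
  by_cases hsm : n ^ 3 ≤ s
  · have h1 : (n : ℝ) ^ 3 ≤ s := by exact_mod_cast hsm
    have h2 : (1 : ℝ) ≤ 4000 * w * (r + 53 * c * w * Real.logb 2 n) := by nlinarith
    nlinarith
  have hM : 4 * n * (2 * s + 1) + 2 + s ≤ n ^ 5 := by
    have h1 : s < n ^ 3 := by omega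
    have h2 : 4 * n * (2 * s + 1) ≤ 4 * n * (2 * n ^ 3) := Nat.mul_le_mul_left _ (by omega)
    have h3 : 4 * n * (2 * n ^ 3) = 8 * n ^ 4 := by ring
    have h4 : n ^ 3 ≤ n ^ 4 := Nat.pow_le_pow_right (by omega) (by norm_num)
    have h5 : 100 * n ^ 4 ≤ n ^ 5 := by
      calc 100 * n ^ 4 ≤ n * n ^ 4 := Nat.mul_le_mul_right _ hn
        _ = n ^ 5 := by ring
    have h6 : 1 ≤ n ^ 4 := Nat.one_le_pow _ _ (by omega)
    omega
  have h := span_bound (D := fun _ : Fin 3 × Fin n × Fin n => ℤ) μ hμ F InRange zeroTri hF s hs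
    (Nat.one_le_pow _ _ (by omega)) hw n (n ^ 5) hM 0 (by norm_num) (first n) (T := Fin n)
    asks_first (n : ℝ) hn' (by rw [Fintype.card_fin])
  rw [card_first, Nat.cast_pow n 5, Nat.cast_pow n c, Nat.cast_pow n 2, Real.logb_pow,
    Real.logb_pow, ← hr'] at h
  obtain ⟨l, hl'⟩ : ∃ l : ℝ, l = Real.logb 2 (n : ℝ) := ⟨_, rfl⟩
  rw [← hl'] at h hl hX ⊢
  push_cast at h
  have h1 : 3 + 10 * (5 * l) + 2 * ((w : ℝ) - 1) * (c * l) ≤ 53 * c * w * l := by
    have h2 : 3 + 10 * (5 * l) ≤ 51 * l := by linarith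
    have h3 : 51 * l ≤ 51 * (c * w) * l := by nlinarith
    have h4 : 0 ≤ (c : ℝ) * l := by positivity
    nlinarith
  calc (n : ℝ) ^ 3 = (n : ℝ) ^ 2 * n := by ring
    _ ≤ _ := h
    _ ≤ 4000 * w * (r + 53 * c * w * l) * s := by
        apply mul_le_mul_of_nonneg_right _ hs0
        apply mul_le_mul_of_nonneg_left _ (by linarith)
        linarith

end Pool.Agent.Run7.h412.SP.ZT
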