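import Pool.Agent.Run7.h412.SP.ZeroSum
import Pool.Agent.Y638.RF.MinPlus

set_option autoImplicit false

/-! # Shortest paths and span programs -/

namespace Pool.Agent.Run7.h412.SP.MinPlus

open Finset Pool.Agent.TH697.Form Pool.Agent.TH697.Row Pool.Agent.TH697.Form.MinPlus
open Pool.Agent.TH457.Ary.MinPlus Pool.Agent.Y638.RF Pool.Agent.Y638.RF.MinPlus
open Pool.Agent.Run7.h412.SP.ZeroSum (one_le_logb)

variable {n c w : ℕ} {K : Type} [Field K] [Fintype K]

/-- the arithmetic -/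
theorem arith_span {n a b c w l s : ℝ} (hn : 16 ≤ n) (ha : 1 ≤ a) (hb : 4 ≤ b) (hc : 1 ≤ c)
    (hw : 1 ≤ w) (hl : l ≤ 5 / 4 * b) (hs : 0 ≤ s)
    (h : n * (n ^ 2 * b) ≤ 4000 * w * (Real.sqrt (a * (n ^ 2 * b)) +
      (3 + 10 * (7 * l) + 2 * (w - 1) * (c * l))) * s) :
    n ^ 3 ≤ 2000 * w * (n * Real.sqrt a + 180 * c * w) * s := by
  have h1 : Real.sqrt (a * (n ^ 2 * b)) ≤ n * Real.sqrt a * b / 2 := by
    have e : a * (n ^ 2 * b) = (n * Real.sqrt a) ^ 2 * b := by
      rw [mul_pow, Real.sq_sqrt (by linarith)]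
      ring
    have h0 : 0 ≤ n * Real.sqrt a := mul_nonneg (by linarith) (Real.sqrt_nonneg _)
    rw [e, Real.sqrt_mul (by positivity), Real.sqrt_sq h0]
    have h2 : Real.sqrt b ≤ b / 2 := by
      rw [Real.sqrt_le_left (by linarith)]
      nlinarith
    calc n * Real.sqrt a * Real.sqrt b ≤ n * Real.sqrt a * (b / 2) :=
          mul_le_mul_of_nonneg_left h2 h0
      _ = _ := by ring
  have h2 : 3 + 10 * (7 * l) + 2 * (w - 1) * (c * l) ≤ 90 * (c * w * b) := by
    have h4 : (w - 1) * (c * l) ≤ (w - 1) * (c * (5 / 4 * b)) :=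
      mul_le_mul_of_nonneg_left (mul_le_mul_of_nonneg_left hl (by linarith)) (by linarith)
    have h5 : 3 + 10 * (7 * l) ≤ 90 * b := by linarith
    have h6 : b ≤ c * b := by nlinarith
    have h7 : 0 ≤ (w - 1) * (c * b) := by
      apply mul_nonneg (by linarith)
      positivity
    nlinarith
  have h3 : n * (n ^ 2 * b) ≤ 4000 * w * (n * Real.sqrt a * b / 2 + 90 * (c * w * b)) * s := by
    refine h.trans ?_
    apply mul_le_mul_of_nonneg_right _ hs
    apply mul_le_mul_of_nonneg_left _ (by linarith)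
    linarith
  have h4 : b * n ^ 3 ≤ b * (2000 * w * (n * Real.sqrt a + 180 * c * w) * s) := by
    have e1 : n * (n ^ 2 * b) = b * n ^ 3 := by ring
    have e2 : 4000 * w * (n * Real.sqrt a * b / 2 + 90 * (c * w * b)) * s =
        b * (2000 * w * (n * Real.sqrt a + 180 * c * w) * s) := by ring
    rw [e1, e2] at h3
    exact h3
  exact le_of_mul_le_mul_left h4 (by linarith)

theorem bound (hn : 16 ≤ n) (hc : 1 ≤ c) (hw : 1 ≤ w) {Ω : Type} [Fintype Ω] (μ : Ω → ℝ)
    (hμ : IsProb μ) (s : ℕ) (F : Ω → SpanProgram K (Option (Fin n)) (Item n) w (n ^ c))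
    (hs : ∀ ω, (F ω).size ≤ s)
    (hF : ApproximatesOn μ (fun ω => (F ω).eval) (InRange n (n + 1)) (shortcut n) ∨
      ApproximatesOn μ (fun ω x => !(F ω).eval x) (InRange n (n + 1)) (shortcut n)) :
    (n : ℝ) ^ 3 ≤ 2000 * w * (n * Real.sqrt (Real.logb 2 (Fintype.card K)) +
      180 * c * w) * s := by
  classical
  have hw' : (1 : ℝ) ≤ w := by exact_mod_cast hw
  have hc' : (1 : ℝ) ≤ c := by exact_mod_cast hc
  have hs0 : (0 : ℝ) ≤ s := Nat.cast_nonneg s
  have hn' : (16 : ℝ) ≤ n := by exact_mod_cast hn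
  have ha := one_le_logb K
  by_cases hsn : n ^ 3 ≤ s
  · have h1 : (n : ℝ) ^ 3 ≤ s := by exact_mod_cast hsn
    have h2 : 0 ≤ (n : ℝ) * Real.sqrt (Real.logb 2 (Fintype.card K)) :=
      mul_nonneg (by linarith) (Real.sqrt_nonneg _)
    have h3 : (1 : ℝ) ≤ c * w := by nlinarith
    have h4 : (1 : ℝ) ≤ 2000 * w * (n * Real.sqrt (Real.logb 2 (Fintype.card K)) +
        180 * c * w) := by nlinarith
    nlinarith
  obtain ⟨b, hb⟩ : ∃ b, b = Nat.log 2 n := ⟨_, rfl⟩
  have hb4 : 4 ≤ b := by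
    have := Nat.log_mono_right (b := 2) hn
    rw [hb]
    rwa [show Nat.log 2 16 = 4 by decide +kernel] at this
  have hpow : 2 ^ b ≤ n := by
    rw [hb]
    exact Nat.pow_log_le_self 2 (by omega)
  have hpow2 : n < 2 ^ (b + 1) := by
    have := Nat.lt_pow_succ_log_self (b := 2) (by norm_num) n
    rw [hb]
    exact this
  have hb' : (4 : ℝ) ≤ b := by exact_mod_cast hb4
  have hM : 4 * n ^ 3 * (2 * s + 1) + 2 + s ≤ n ^ 7 := by
    have h1 : s < n ^ 3 := by omega
    have h2 : 4 * n ^ 3 * (2 * s + 1) ≤ 4 * n ^ 3 * (2 * n ^ 3) := Nat.mul_le_mul_left _ (by omega)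
    have h3 : 4 * n ^ 3 * (2 * n ^ 3) = 8 * n ^ 6 := by ring
    have h4 : n ^ 3 ≤ n ^ 6 := Nat.pow_le_pow_right (by omega) (by norm_num)
    have h5 : 16 * n ^ 6 ≤ n ^ 7 := by
      calc 16 * n ^ 6 ≤ n * n ^ 6 := Nat.mul_le_mul_right _ hn
        _ = n ^ 7 := by ring
    have h6 : 1 ≤ n ^ 6 := Nat.one_le_pow _ _ (by omega)
    omega
  have hF' : ApproximatesOn μ (fun ω => (F ω).eval) (InRange n (2 ^ b + 1)) (shortcut n) ∨
      ApproximatesOn μ (fun ω x => !(F ω).eval x) (InRange n (2 ^ b + 1)) (shortcut n) := by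
    rcases hF with hF | hF
    · exact Or.inl (approx_mono μ _ _ _ _ (fun x hx => inRange_mono (by omega) x hx) hF)
    · exact Or.inr (approx_mono μ _ _ _ _ (fun x hx => inRange_mono (by omega) x hx) hF)
  have h := span_bound μ hμ F (InRange n (2 ^ b + 1)) (shortcut n) hF' s hs
    (Nat.one_le_pow _ _ (by omega)) hw (n ^ 3) (n ^ 7) hM 0 (by norm_num)
    ((univ : Finset (Fin n)).map Function.Embedding.some) (T := Fin n × Fin n × Fin b) (by
      intro a ha
      rw [mem_map] at ha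
      obtain ⟨i, -, rfl⟩ := ha
      exact asks hpow i) ((n : ℝ) ^ 2 * b) (by nlinarith) (by
      rw [card_T])
  rw [card_map, card_univ, Fintype.card_fin] at h
  push_cast at h
  rw [Real.logb_pow, Real.logb_pow] at h
  push_cast at h
  refine arith_span (l := Real.logb 2 n) hn' ha hb' hc' hw' ?_ hs0 h
  have h9 := logb_q (c := 1) (by omega) hb4 hpow2
  simpa using h9

end Pool.Agent.Run7.h412.SP.MinPlus
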