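import Pool.Agent.Run7.h412.SP.Defs
import Pool.Agent.Y638.RF.NetCore

set_option autoImplicit false

/-! # Few subfunctions of span programs -/

namespace Pool.Agent.Run7.h412.SP

open Finset Pool.Agent.Y638.RF

variable {K : Type} [Field K] {ι : Type} {D : ι → Type} [DecidableEq ι] {w q : ℕ}

namespace SpanProgram

/-- The number of leaves which see item `i`. -/
def reads (i : ι) (N : SpanProgram K ι D w q) : ℕ := ∑ k, (N.fml k).reads i

/-- The rows whose guards see item `i`. -/
abbrev Live (i : ι) (N : SpanProgram K ι D w q) : Type := {k : Fin N.rows // (N.fml k).reads i ≠ 0}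

theorem card_live (i : ι) (N : SpanProgram K ι D w q) : Fintype.card (N.Live i) ≤ N.reads i := by
  rw [Fintype.card_subtype, card_filter]
  unfold reads
  apply sum_le_sum
  intro k _
  split_ifs with h <;> omega

/-- the space which does not depend on item `i` -/
def Dead (i : ι) (N : SpanProgram K ι D w q) (z : ∀ i, D i) : Submodule K (Fin N.dim → K) :=
  N.free ⊔ Submodule.span K {v | ∃ k, (N.fml k).reads i = 0 ∧ (N.fml k).accepts z = true ∧
    N.vec k = v}

/-- the linear combinations of the live rows -/
def comb (i : ι) (N : SpanProgram K ι D w q) : (N.Live i → K) →ₗ[K] (Fin N.dim → K) :=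
  Fintype.linearCombination K (fun k : N.Live i => N.vec k.1)

theorem comb_apply (i : ι) (N : SpanProgram K ι D w q) (c : N.Live i → K) :
    N.comb i c = ∑ k, c k • N.vec k.1 := by
  unfold comb
  rw [Fintype.linearCombination_apply]

/-- The coefficients of the live rows which complete a combination. -/
def Sol (i : ι) (N : SpanProgram K ι D w q) (z : ∀ i, D i) : Set (N.Live i → K) :=
  {c | N.target - N.comb i c ∈ N.Dead i z}

open Classical in
theorem accepts_iff (i : ι) (N : SpanProgram K ι D w q) (z : ∀ i, D i) (d : D i) :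
    N.Accepts (Function.update z i d) ↔ ∃ c ∈ N.Sol i z, ∀ k, c k ≠ 0 →
      (N.fml k.1).accepts (Function.update z i d) = true := by
  have hsplit : {v | ∃ k, (N.fml k).accepts (Function.update z i d) = true ∧ N.vec k = v} =
      {v | ∃ k, (N.fml k).reads i = 0 ∧ (N.fml k).accepts z = true ∧ N.vec k = v} ∪
      {v | ∃ k : N.Live i, (N.fml k.1).accepts (Function.update z i d) = true ∧
        N.vec k.1 = v} := by
    ext v
    simp only [Set.mem_ofPred_eq, Set.mem_union]
    constructor
    · rintro ⟨k, h1, h2⟩
      by_cases hr : (N.fml k).reads i = 0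
      · left
        rw [Net.accepts_update _ _ hr] at h1
        exact ⟨k, hr, h1, h2⟩
      · exact Or.inr ⟨⟨k, hr⟩, h1, h2⟩
    · rintro (⟨k, hr, h1, h2⟩ | ⟨k, h1, h2⟩)
      · refine ⟨k, ?_, h2⟩
        rw [Net.accepts_update _ _ hr]
        exact h1
      · exact ⟨k.1, h1, h2⟩
  unfold Accepts
  rw [hsplit, Submodule.span_union, ← sup_assoc, Submodule.mem_sup]
  constructor
  · rintro ⟨a, ha, b, hb, hab⟩
    have hb2 : ∃ c : N.Live i → K, (∀ k, c k ≠ 0 →
        (N.fml k.1).accepts (Function.update z i d) = true) ∧ N.comb i c = b := by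
      refine Submodule.span_induction (p := fun b _ => ∃ c : N.Live i → K, (∀ k, c k ≠ 0 →
        (N.fml k.1).accepts (Function.update z i d) = true) ∧ N.comb i c = b) ?_ ?_ ?_ ?_ hb
      · rintro v ⟨k, h1, h2⟩
        refine ⟨Pi.single k 1, ?_, ?_⟩
        · intro k' hk'
          by_cases h : k' = k
          · rw [h]; exact h1
          · exact absurd (Pi.single_eq_of_ne h _) hk'
        · rw [comb_apply, Finset.sum_eq_single k]
          · rw [Pi.single_eq_same, one_smul, h2]
          · intro k' _ hk'
            rw [Pi.single_eq_of_ne hk', zero_smul]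
          · intro h
            exact absurd (mem_univ _) h
      · exact ⟨0, fun k hk => absurd rfl hk, map_zero _⟩
      · rintro u v - - ⟨c, h1, h2⟩ ⟨c', h3, h4⟩
        refine ⟨c + c', ?_, ?_⟩
        · intro k hk
          by_cases h : c k = 0
          · apply h3
            intro h'
            apply hk
            rw [Pi.add_apply, h, h', add_zero]
          · exact h1 k h
        · rw [map_add, h2, h4]
      · rintro a u - ⟨c, h1, h2⟩
        refine ⟨a • c, ?_, ?_⟩
        · intro k hk
          apply h1
          intro h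
          apply hk
          rw [Pi.smul_apply, h, smul_zero]
        · rw [map_smul, h2]
    obtain ⟨c, hc1, hc2⟩ := hb2
    refine ⟨c, ?_, hc1⟩
    change N.target - N.comb i c ∈ N.Dead i z
    rw [hc2]
    have : N.target - b = a := by rw [← hab]; abel
    rw [this]
    exact ha
  · rintro ⟨c, hc, hk⟩
    refine ⟨N.target - N.comb i c, hc, N.comb i c, ?_, by abel⟩
    rw [comb_apply]
    apply Submodule.sum_mem
    intro k _
    by_cases h0 : c k = 0
    · rw [h0, zero_smul]
      exact Submodule.zero_mem _
    · apply Submodule.smul_mem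
      exact Submodule.subset_span ⟨k, hk k h0, rfl⟩

/-- The sets `Sol` are given by few parameters. -/
def decode {L : Type} [Fintype L] (e : Option (Matrix L L K × (L → K))) : Set (L → K) :=
  match e with
  | none => ∅
  | some (A, c) => {v | ∃ y, v = c + A.mulVec y}

theorem sol_eq (i : ι) (N : SpanProgram K ι D w q) (z : ∀ i, D i) :
    ∃ e, N.Sol i z = decode e := by
  classical
  by_cases hne : (N.Sol i z).Nonempty
  · obtain ⟨c, hc⟩ := hne
    obtain ⟨U, hU⟩ : ∃ U : Submodule K (N.Live i → K), U = (N.Dead i z).comap (N.comb i) := ⟨_, rfl⟩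
    obtain ⟨g, hg⟩ := LinearMap.exists_leftInverse_of_injective U.subtype
      (Submodule.ker_subtype U)
    refine ⟨some (LinearMap.toMatrix' (U.subtype.comp g), c), ?_⟩
    ext v
    unfold decode
    simp only [Set.mem_ofPred_eq, LinearMap.toMatrix'_mulVec]
    change N.target - N.comb i v ∈ N.Dead i z ↔ ∃ y, v = c + U.subtype (g y)
    change N.target - N.comb i c ∈ N.Dead i z at hc
    constructor
    · intro hv
      have h1 : v - c ∈ U := by
        rw [hU, Submodule.mem_comap, map_sub]
        have := Submodule.sub_mem _ hc hv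
        have e : N.comb i v - N.comb i c = N.target - N.comb i c - (N.target - N.comb i v) := by
          abel
        rw [e]
        exact this
      refine ⟨v - c, ?_⟩
      have h2 : g (U.subtype ⟨v - c, h1⟩) = ⟨v - c, h1⟩ := LinearMap.congr_fun hg ⟨v - c, h1⟩
      have h3 : g (v - c) = ⟨v - c, h1⟩ := h2
      rw [h3]
      change v = c + (v - c)
      abel
    · rintro ⟨y, hy⟩
      have h1 : U.subtype (g y) ∈ U := (g y).2
      obtain ⟨u, hu⟩ : ∃ u, u = U.subtype (g y) := ⟨_, rfl⟩
      rw [← hu] at hy h1
      rw [hU, Submodule.mem_comap] at h1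
      rw [hy, map_add]
      have e : N.target - (N.comb i c + N.comb i u) = (N.target - N.comb i c) - N.comb i u := by
        abel
      rw [e]
      exact Submodule.sub_mem _ hc h1
  · exact ⟨none, Set.not_nonempty_iff_eq_empty.1 hne⟩

open Classical in
/-- Few subfunctions. -/
theorem subfunctions [Fintype K] {Y : Type} [Fintype Y] (i : ι) (y : Y → D i) (s M B : ℕ)
    (hq : 1 ≤ q) (hM : 4 * Fintype.card Y * (2 * s + 1) + 2 + s ≤ M)
    (hB : B = 2 * M ^ 5 * q ^ (w - 1)) (N : SpanProgram K ι D w q) (hs : N.size ≤ s) :
    ∃ S : Finset (Y → Bool), S.card ≤ 2 * Fintype.card K ^ (N.reads i ^ 2 + N.reads i) *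
        (2 * B ^ 2) ^ N.reads i ∧
      ∀ z : (∀ i, D i), (fun v => N.eval (Function.update z i (y v))) ∈ S := by
  obtain ⟨-, -, hB1⟩ := Fml.base_bound (M := M) (B := B) (q := q) (w := w) (by omega) hq hB
  have hsk : ∀ k, (N.fml k).size ≤ s := by
    intro k
    have h1 : (N.fml k).size + 1 ≤ N.size := by
      unfold size
      exact single_le_sum (f := fun k => (N.fml k).size + 1) (fun _ _ => Nat.zero_le _)
        (mem_univ k)
    omega
  choose S hS1 hS2 using fun k : N.Live i =>
    (N.fml k.1).subfunctions i y s M B hq hM hB (hsk k.1)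
  choose code hcode using fun z => N.sol_eq i z
  obtain ⟨Φ, hΦ⟩ : ∃ Φ : (∀ i, D i) → (Option (Matrix (N.Live i) (N.Live i) K × (N.Live i → K))) ×
      ((k : N.Live i) → {f : Y → Bool // f ∈ S k}), ∀ z, Φ z = (code z, fun k =>
        ⟨fun v => (N.fml k.1).accepts (Function.update z i (y v)), hS2 k z⟩) := ⟨_, fun _ => rfl⟩
  refine ⟨univ.image (fun c => if h : ∃ z, Φ z = c then
    (fun v => N.eval (Function.update h.choose i (y v))) else fun _ => false), ?_, fun z => ?_⟩
  · refine card_image_le.trans ?_
    have e0 : Fintype.card ((k : N.Live i) → {f : Y → Bool // f ∈ S k}) = ∏ k, (S k).card := by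
      rw [Fintype.card_pi]
      simp only [Fintype.card_coe]
    rw [card_univ, Fintype.card_prod, e0, Fintype.card_option, Fintype.card_prod]
    have hl := N.card_live i
    have hK : 1 ≤ Fintype.card K := Fintype.card_pos
    apply Nat.mul_le_mul
    · have e1 : Fintype.card (Matrix (N.Live i) (N.Live i) K) =
          (Fintype.card K ^ Fintype.card (N.Live i)) ^ Fintype.card (N.Live i) := by
        rw [Fintype.card_congr (Matrix.of (m := N.Live i) (n := N.Live i) (α := K)).symm,
          Fintype.card_fun, Fintype.card_fun]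
      have e2 : Fintype.card (N.Live i → K) = Fintype.card K ^ Fintype.card (N.Live i) :=
        Fintype.card_fun
      rw [e1, e2, ← pow_mul, ← pow_add]
      have h1 : Fintype.card K ^ (Fintype.card (N.Live i) * Fintype.card (N.Live i) +
          Fintype.card (N.Live i)) ≤ Fintype.card K ^ (N.reads i ^ 2 + N.reads i) := by
        apply Nat.pow_le_pow_right hK
        rw [sq]
        exact add_le_add (Nat.mul_le_mul hl hl) hl
      have h2 : 1 ≤ Fintype.card K ^ (N.reads i ^ 2 + N.reads i) := Nat.one_le_pow _ _ hK
      omega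
    · calc ∏ k : N.Live i, (S k).card ≤ ∏ k : N.Live i, (2 * B ^ 2) ^ (N.fml k.1).reads i := by
            apply prod_le_prod'
            intro k _
            refine (hS1 k).trans ?_
            rw [mul_pow, ← pow_mul]
            apply Nat.mul_le_mul_right
            calc 2 = 2 ^ 1 := rfl
              _ ≤ 2 ^ (N.fml k.1).reads i := Nat.pow_le_pow_right (by norm_num) (by
                have := k.2
                omega)
        _ = (2 * B ^ 2) ^ (∑ k : N.Live i, (N.fml k.1).reads i) := by rw [prod_pow_eq_pow_sum]
        _ ≤ (2 * B ^ 2) ^ N.reads i := by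
            apply Nat.pow_le_pow_right
            · have : 1 ≤ B ^ 2 := Nat.one_le_pow _ _ hB1
              omega
            · unfold reads
              have e : ∑ k : N.Live i, (N.fml k.1).reads i =
                  ∑ k ∈ univ.filter (fun k => (N.fml k).reads i ≠ 0), (N.fml k).reads i := by
                rw [← Finset.sum_subtype_eq_sum_filter, Finset.subtype_univ]
              rw [e]
              exact sum_le_sum_of_subset (filter_subset _ _)
  · rw [mem_image]
    refine ⟨Φ z, mem_univ _, ?_⟩
    have hex : ∃ z', Φ z' = Φ z := ⟨z, rfl⟩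
    rw [dif_pos hex]
    obtain ⟨z', hz'⟩ : ∃ z', z' = hex.choose := ⟨_, rfl⟩
    have h1 : Φ z' = Φ z := by rw [hz']; exact hex.choose_spec
    rw [← hz']
    rw [hΦ, hΦ, Prod.mk.injEq] at h1
    obtain ⟨h2, h3⟩ := h1
    funext v
    have h4 : ∀ k : N.Live i, (N.fml k.1).accepts (Function.update z' i (y v)) =
        (N.fml k.1).accepts (Function.update z i (y v)) := by
      intro k
      have h5 := congrFun h3 k
      rw [Subtype.mk.injEq] at h5
      exact congrFun h5 v
    have h6 : N.Sol i z' = N.Sol i z := by rw [hcode, hcode, h2]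
    unfold eval
    rw [decide_eq_decide, accepts_iff, accepts_iff, h6]
    simp only [h4]

theorem sum_reads_le (I : Finset ι) (hw : 1 ≤ w) (N : SpanProgram K ι D w q) :
    ∑ i ∈ I, N.reads i ≤ w * N.size := by
  unfold reads size
  rw [sum_comm, mul_sum]
  apply sum_le_sum
  intro k _
  exact (Fml.sum_reads_le I hw (N.fml k)).trans (Nat.mul_le_mul_left _ (by omega))

end SpanProgram

end Pool.Agent.Run7.h412.SP
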