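import Pool.Agent.Y638.RF.Defs

set_option autoImplicit false

/-! # Span programs whose rows are guarded by real formulas -/

namespace Pool.Agent.Run7.h412.SP

open Finset Pool.Agent.Y638.RF

/-- A span program over the field `K` (Karchmer and Wigderson): `rows` vectors of `K ^ dim`, each with
a guard, which is a real formula, a subspace `free` whose vectors are always available, and a
target vector. -/
structure SpanProgram (K : Type) [Field K] (ι : Type) (D : ι → Type) (w q : ℕ) where
  /-- the dimension of the space -/
  dim : ℕ
  /-- the target vector -/
  target : Fin dim → K
  /-- the vectors which are always available -/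
  free : Submodule K (Fin dim → K)
  /-- number of guarded rows -/
  rows : ℕ
  vec : Fin rows → Fin dim → K
  fml : Fin rows → Fml ι D w q

namespace SpanProgram

variable {K : Type} [Field K] {ι : Type} {D : ι → Type} {w q : ℕ}

/-- The input is accepted if the target is a linear combination of free vectors and of rows whose
guards accept the input. -/
def Accepts (N : SpanProgram K ι D w q) (x : ∀ i, D i) : Prop :=
  N.target ∈ N.free ⊔ Submodule.span K {v | ∃ k, (N.fml k).accepts x = true ∧ N.vec k = v}

open Classical in
/-- The result of the computation. -/
noncomputable def eval (N : SpanProgram K ι D w q) (x : ∀ i, D i) : Bool := decide (N.Accepts x)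

/-- The size: the number of the guarded rows plus the sizes of their formulas (the dimension and the
free vectors are not counted). -/
def size (N : SpanProgram K ι D w q) : ℕ := ∑ k, ((N.fml k).size + 1)

end SpanProgram

end Pool.Agent.Run7.h412.SP
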