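import Pool.Agent.Run7.h412.SP.Core
import Pool.Agent.Y638.RF.NetGen

set_option autoImplicit false

/-! # Lower bounds for devices with few subfunctions -/

namespace Pool.Agent.Run7.h412.SP

open Finset Pool.Agent.TH697.Form Pool.Agent.TH697.Row Pool.Agent.Y638.RF

variable {ι : Type} {D : ι → Type} [DecidableEq ι] {T : Type} [Fintype T] {Ω : Type} [Fintype Ω]
  {w q : ℕ}

open Classical in
/-- The lower bound for random devices such that an item which is read `r` times sees at most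
`2 A ^ (r ^ 2 + r) C ^ r` different subfunctions. -/
theorem dev_lower (μ : Ω → ℝ) (hμ : IsProb μ) (G : Ω → (∀ i, D i) → Bool)
    (P : (∀ i, D i) → Prop) (f : (∀ i, D i) → Bool) (hG : ApproximatesOn μ G P f)
    (ρ : Ω → ι → ℕ) (A C K W : ℕ) (hA : 1 ≤ A) (hC : 1 ≤ C)
    (hsub : ∀ ω i (Y : Type) [Fintype Y] (y : Y → D i), Fintype.card Y ≤ K →
      ∃ S : Finset (Y → Bool), S.card ≤ 2 * A ^ (ρ ω i ^ 2 + ρ ω i) * C ^ ρ ω i ∧
        ∀ z : (∀ i, D i), (fun v => G ω (Function.update z i (y v))) ∈ S)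
    (I : Finset ι) (hsum : ∀ ω, ∑ i ∈ I, ρ ω i ≤ W) (δ : ℝ)
    (h : ∀ i ∈ I, Asks T K δ P f i) (θ : ℝ) (hθ : 0 < θ)
    (hsmall : 1 + 2 * (40 * θ) ^ 2 * Real.logb 2 A + 40 * θ * Real.logb 2 C <
      (17 / 300 - δ) * Fintype.card T) :
    (I.card : ℝ) * θ ≤ W := by
  have h6 : (0 : ℝ) < Real.log 2 := Real.log_pos (by norm_num)
  have hlA : 0 ≤ Real.log (A : ℝ) := Real.log_nonneg (by exact_mod_cast hA)
  have hlC : 0 ≤ Real.log (C : ℝ) := Real.log_nonneg (by exact_mod_cast hC)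
  have hA0 : (0 : ℝ) < A := by exact_mod_cast hA
  have hC0 : (0 : ℝ) < C := by exact_mod_cast hC
  -- every item is read often
  have h1 : ∀ i ∈ I, θ ≤ ∑ ω, μ ω * (ρ ω i : ℝ) := by
    intro i hi
    by_contra hlt
    push Not at hlt
    obtain ⟨A', r, Q, R, hA', hQA, hQ, hP, hf⟩ := h i hi
    obtain ⟨y, hy⟩ : ∃ y : {d // d ∈ A'} → D i, y = fun v => v.1 := ⟨_, rfl⟩
    choose S hS1 hS2 using fun ω => hsub ω i {d // d ∈ A'} y (by
      rw [Fintype.card_coe]
      exact hA')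
    obtain ⟨bad, hbad⟩ : ∃ bad : Finset Ω, bad = univ.filter (fun ω => 40 * θ < (ρ ω i : ℝ)) :=
      ⟨_, rfl⟩
    have hmark : ∑ ω ∈ bad, μ ω ≤ 1 / 40 := by
      have h2 : ∑ ω ∈ bad, μ ω * (40 * θ) ≤ ∑ ω, μ ω * (ρ ω i : ℝ) := by
        calc ∑ ω ∈ bad, μ ω * (40 * θ) ≤ ∑ ω ∈ bad, μ ω * (ρ ω i : ℝ) := by
              apply sum_le_sum
              intro ω hω
              rw [hbad, mem_filter] at hω
              exact mul_le_mul_of_nonneg_left hω.2.le (hμ.nonneg ω)
          _ ≤ _ := sum_le_sum_of_subset_of_nonneg (subset_univ _) (fun ω _ _ =>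
              mul_nonneg (hμ.nonneg ω) (Nat.cast_nonneg _))
      rw [← sum_mul] at h2
      have h3 : (∑ ω ∈ bad, μ ω) * (40 * θ) < θ := lt_of_le_of_lt h2 hlt
      nlinarith
    obtain ⟨G', hG'⟩ : ∃ G' : Ω → (∀ i, D i) → Bool, ∀ ω x, G' ω x =
        if ω ∈ bad then false else G ω x := ⟨_, fun _ _ => rfl⟩
    have hGerr : ∀ x, P x → ∑ ω ∈ univ.filter (fun ω => G' ω x ≠ f x), μ ω ≤ 1 / 3 + 1 / 40 := by
      intro x hx
      have h2 : univ.filter (fun ω => G' ω x ≠ f x) ⊆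
          univ.filter (fun ω => G ω x ≠ f x) ∪ bad := by
        intro ω hω
        rw [mem_filter] at hω
        rw [mem_union, mem_filter]
        by_cases hb : ω ∈ bad
        · exact Or.inr hb
        · left
          have h3 := hω.2
          rw [hG', if_neg hb] at h3
          exact ⟨mem_univ _, h3⟩
      calc ∑ ω ∈ univ.filter (fun ω => G' ω x ≠ f x), μ ω
          ≤ ∑ ω ∈ univ.filter (fun ω => G ω x ≠ f x) ∪ bad, μ ω :=
            sum_le_sum_of_subset_of_nonneg h2 (fun ω _ _ => hμ.nonneg ω)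
        _ ≤ ∑ ω ∈ univ.filter (fun ω => G ω x ≠ f x), μ ω + ∑ ω ∈ bad, μ ω := by
            rw [← sum_union_inter]
            have : 0 ≤ ∑ ω ∈ univ.filter (fun ω => G ω x ≠ f x) ∩ bad, μ ω :=
              sum_nonneg fun ω _ => hμ.nonneg ω
            linarith
        _ ≤ _ := add_le_add (hG x hx) hmark
    have h2 := gen_err' μ hμ G' P f (1 / 3 + 1 / 40) hGerr i y
      (fun ω => if ω ∈ bad then {fun _ => false} else S ω) (fun ω z => by
        by_cases hb : ω ∈ bad
        · rw [if_pos hb, mem_singleton]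
          funext v
          rw [hG', if_pos hb]
        · rw [if_neg hb]
          have : (fun v => G' ω (Function.update z i (y v))) =
              fun v => G ω (Function.update z i (y v)) := by
            funext v
            rw [hG', if_neg hb]
          rw [this]
          exact hS2 ω z) r
      (fun t z => ⟨Q t z, hQA t z⟩) (fun t z z' hz => Subtype.ext (hQ t z z' hz)) R
      (fun t z => by rw [hy]; exact hP t z) δ (by rw [hy]; exact hf)
    have h3 : ∀ ω, μ ω * Real.log ((if ω ∈ bad then {fun _ => false} else S ω : Finset _).card : ℝ) ≤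
        μ ω * ((1 + 2 * (40 * θ) ^ 2 * Real.logb 2 A + 40 * θ * Real.logb 2 C) * Real.log 2) := by
      intro ω
      apply mul_le_mul_of_nonneg_left _ (hμ.nonneg ω)
      have e2 : (1 + 2 * (40 * θ) ^ 2 * Real.logb 2 A + 40 * θ * Real.logb 2 C) * Real.log 2 =
          Real.log 2 + 2 * (40 * θ) ^ 2 * Real.log A + 40 * θ * Real.log C := by
        rw [Real.logb, Real.logb]
        field_simp
      rw [e2]
      by_cases hb : ω ∈ bad
      · rw [if_pos hb, card_singleton, Nat.cast_one, Real.log_one]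
        positivity
      · rw [if_neg hb]
        have hr : (ρ ω i : ℝ) ≤ 40 * θ := by
          rw [hbad, mem_filter] at hb
          push Not at hb
          exact hb (mem_univ _)
        have hne : 1 ≤ (S ω).card := card_pos.2 ⟨_, hS2 ω (R (fun _ => false))⟩
        have h4 : ((S ω).card : ℝ) ≤ 2 * (A : ℝ) ^ (ρ ω i ^ 2 + ρ ω i) * (C : ℝ) ^ ρ ω i := by
          exact_mod_cast hS1 ω
        have h5 := Real.log_le_log (by exact_mod_cast hne) h4
        rw [Real.log_mul (by positivity) (by positivity), Real.log_mul (by positivity)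
          (by positivity), Real.log_pow, Real.log_pow] at h5
        push_cast at h5
        refine h5.trans ?_
        have hr2 : (ρ ω i : ℝ) ≤ (ρ ω i : ℝ) ^ 2 := by
          have : ρ ω i ≤ ρ ω i ^ 2 := Nat.le_self_pow (by norm_num) _
          exact_mod_cast this
        have h7 : (ρ ω i : ℝ) ^ 2 ≤ (40 * θ) ^ 2 :=
          pow_le_pow_left₀ (Nat.cast_nonneg _) hr 2
        have h8 : ((ρ ω i : ℝ) ^ 2 + ρ ω i) * Real.log A ≤ 2 * (40 * θ) ^ 2 * Real.log A :=
          mul_le_mul_of_nonneg_right (by linarith) hlA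
        have h9 : (ρ ω i : ℝ) * Real.log C ≤ 40 * θ * Real.log C :=
          mul_le_mul_of_nonneg_right hr hlC
        linarith
    have h4 := h2.trans (sum_le_sum fun ω (_ : ω ∈ (univ : Finset Ω)) => h3 ω)
    rw [← sum_mul, hμ.sum_one, one_mul] at h4
    have h5 := le_of_mul_le_mul_right h4 h6
    have h7 : (415 / 1000 - (1 / 3 + 1 / 40) - δ) * (Fintype.card T : ℝ) =
        (17 / 300 - δ) * Fintype.card T := by ring
    rw [h7] at h5
    linarith
  have h2 := sum_le_sum h1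
  rw [sum_const, nsmul_eq_mul, sum_comm] at h2
  refine h2.trans ?_
  have e1 : (W : ℝ) = ∑ ω, μ ω * W := by
    rw [← sum_mul, hμ.sum_one, one_mul]
  rw [e1]
  apply sum_le_sum
  intro ω _
  rw [← mul_sum]
  apply mul_le_mul_of_nonneg_left _ (hμ.nonneg ω)
  exact_mod_cast hsum ω

/-- The same with a closed form. -/
theorem dev_bound (μ : Ω → ℝ) (hμ : IsProb μ) (G : Ω → (∀ i, D i) → Bool)
    (P : (∀ i, D i) → Prop) (f : (∀ i, D i) → Bool) (hG : ApproximatesOn μ G P f)
    (ρ : Ω → ι → ℕ) (A C K W : ℕ) (hA : 2 ≤ A) (hC : 1 ≤ C)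
    (hsub : ∀ ω i (Y : Type) [Fintype Y] (y : Y → D i), Fintype.card Y ≤ K →
      ∃ S : Finset (Y → Bool), S.card ≤ 2 * A ^ (ρ ω i ^ 2 + ρ ω i) * C ^ ρ ω i ∧
        ∀ z : (∀ i, D i), (fun v => G ω (Function.update z i (y v))) ∈ S)
    (I : Finset ι) (hsum : ∀ ω, ∑ i ∈ I, ρ ω i ≤ W) (δ : ℝ) (hδ : δ ≤ 1 / 32)
    (h : ∀ i ∈ I, Asks T K δ P f i) (t : ℝ) (ht : 100 ≤ t) (hT : t ≤ Fintype.card T) :
    (I.card : ℝ) * t ≤ 4000 * (Real.sqrt (Real.logb 2 A * t) + Real.logb 2 C) * W := by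
  obtain ⟨L, hL⟩ : ∃ L : ℝ, L = Real.logb 2 C := ⟨_, rfl⟩
  obtain ⟨a, ha⟩ : ∃ a : ℝ, a = Real.logb 2 A := ⟨_, rfl⟩
  have hL0 : 0 ≤ L := by
    rw [hL]
    exact Real.logb_nonneg (by norm_num) (by exact_mod_cast hC)
  have ha1 : 1 ≤ a := by
    rw [ha, Real.le_logb_iff_rpow_le (by norm_num) (by exact_mod_cast (by omega : 0 < A)),
      Real.rpow_one]
    exact_mod_cast hA
  obtain ⟨u, hu⟩ : ∃ u : ℝ, u = Real.sqrt (a * t) := ⟨_, rfl⟩
  have hat : 0 < a * t := mul_pos (by linarith) (by linarith)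
  have hu2 : u ^ 2 = a * t := by rw [hu]; exact Real.sq_sqrt hat.le
  have hu0 : 0 < u := by rw [hu]; exact Real.sqrt_pos.2 hat
  obtain ⟨θ, hθ⟩ : ∃ θ : ℝ, θ = t / (4000 * (u + L)) := ⟨_, rfl⟩
  have hθ0 : 0 < θ := by
    rw [hθ]
    have : 0 < t := by linarith
    positivity
  have hθu : 40 * θ ≤ t / (100 * u) := by
    rw [hθ]
    have : 40 * (t / (4000 * (u + L))) = t / (100 * (u + L)) := by field_simp; ring
    rw [this]
    apply div_le_div_of_nonneg_left (by linarith) (by positivity)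
    linarith
  have hθa : (40 * θ) ^ 2 * a ≤ t / 10000 := by
    have h1 : (40 * θ) ^ 2 ≤ (t / (100 * u)) ^ 2 := pow_le_pow_left₀ (by positivity) hθu 2
    have h2 : (t / (100 * u)) ^ 2 * a = t / 10000 := by
      rw [div_pow, mul_pow, hu2]
      field_simp
      norm_num
    calc (40 * θ) ^ 2 * a ≤ (t / (100 * u)) ^ 2 * a :=
          mul_le_mul_of_nonneg_right h1 (by linarith)
      _ = t / 10000 := h2
  have hθL : 40 * θ * L ≤ t / 100 := by
    rw [hθ]
    have : 40 * (t / (4000 * (u + L))) * L = t * L / (100 * (u + L)) := by field_simp; ring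
    rw [this, div_le_div_iff₀ (by positivity) (by norm_num)]
    nlinarith [mul_nonneg (by linarith : (0 : ℝ) ≤ t) hu0.le]
  have h1 := dev_lower μ hμ G P f hG ρ A C K W (by omega) hC hsub I hsum δ h θ hθ0 (by
    rw [← hL, ← ha]
    have h4 : (17 / 300 - 1 / 32) * t ≤ (17 / 300 - δ) * Fintype.card T :=
      mul_le_mul (by linarith) hT (by linarith) (by linarith)
    linarith)
  rw [← hL, ← ha, ← hu]
  have h2 : (I.card : ℝ) * t = 4000 * (u + L) * (I.card * θ) := by
    rw [hθ]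
    field_simp
  rw [h2]
  exact mul_le_mul_of_nonneg_left h1 (by positivity)

variable {K : Type} [Field K] [Fintype K]

/-- The bound for random span programs, for a function or its complement. -/
theorem span_bound (μ : Ω → ℝ) (hμ : IsProb μ) (F : Ω → SpanProgram K ι D w q)
    (P : (∀ i, D i) → Prop) (f : (∀ i, D i) → Bool)
    (hF : ApproximatesOn μ (fun ω => (F ω).eval) P f ∨
      ApproximatesOn μ (fun ω x => !(F ω).eval x) P f) (s : ℕ) (hs : ∀ ω, (F ω).size ≤ s)
    (hq : 1 ≤ q) (hw : 1 ≤ w) (k M : ℕ) (hM : 4 * k * (2 * s + 1) + 2 + s ≤ M) (δ : ℝ)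
    (hδ : δ ≤ 1 / 32)
    (I : Finset ι) (h : ∀ i ∈ I, Asks T k δ P f i) (t : ℝ) (ht : 100 ≤ t)
    (hT : t ≤ Fintype.card T) :
    (I.card : ℝ) * t ≤ 4000 * w * (Real.sqrt (Real.logb 2 (Fintype.card K) * t) +
      (3 + 10 * Real.logb 2 M + 2 * (w - 1) * Real.logb 2 q)) * s := by
  classical
  obtain ⟨B, hB⟩ : ∃ B, B = 2 * M ^ 5 * q ^ (w - 1) := ⟨_, rfl⟩
  have hM0 : 0 < M := by omega
  have hBpos : 0 < B := by
    rw [hB]
    positivity
  have hK : 2 ≤ Fintype.card K := Fintype.one_lt_card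
  have hLB : Real.logb 2 ((2 * B ^ 2 : ℕ) : ℝ) =
      3 + 10 * Real.logb 2 M + 2 * (w - 1) * Real.logb 2 q := by
    have hM' : (0 : ℝ) < M := by exact_mod_cast hM0
    have hq' : (0 : ℝ) < q := by exact_mod_cast hq
    have hB' : (0 : ℝ) < B := by exact_mod_cast hBpos
    have hw' : ((w - 1 : ℕ) : ℝ) = (w : ℝ) - 1 := by
      rw [Nat.cast_sub hw, Nat.cast_one]
    have h6 : (0 : ℝ) < Real.log 2 := Real.log_pos (by norm_num)
    push_cast
    rw [Real.logb, Real.log_mul (by norm_num) (by positivity), Real.log_pow, hB]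
    push_cast
    rw [Real.log_mul (by positivity) (by positivity), Real.log_mul (by positivity) (by positivity),
      Real.log_pow, Real.log_pow, hw', Real.logb, Real.logb]
    field_simp
    push_cast
    ring
  have main : ∀ g : (∀ i, D i) → Bool, ApproximatesOn μ (fun ω => (F ω).eval) P g →
      (∀ i ∈ I, Asks T k δ P g i) →
      (I.card : ℝ) * t ≤ 4000 * (Real.sqrt (Real.logb 2 (Fintype.card K) * t) +
        Real.logb 2 ((2 * B ^ 2 : ℕ) : ℝ)) * ((w * s : ℕ) : ℝ) := by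
    intro g hg hasks
    refine dev_bound μ hμ (fun ω => (F ω).eval) P g hg (fun ω i => (F ω).reads i)
      (Fintype.card K) (2 * B ^ 2) k (w * s) hK (Nat.one_le_iff_ne_zero.2 (by positivity)) ?_ I ?_
      δ hδ hasks t ht hT
    · intro ω i Y _ y hY
      refine (F ω).subfunctions i y s M B hq ?_ hB (hs ω)
      have : 4 * Fintype.card Y * (2 * s + 1) ≤ 4 * k * (2 * s + 1) :=
        Nat.mul_le_mul_right _ (Nat.mul_le_mul_left _ hY)
      omega
    · intro ω
      exact ((F ω).sum_reads_le I hw).trans (Nat.mul_le_mul_left _ (hs ω))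
  have h1 : (I.card : ℝ) * t ≤ 4000 * (Real.sqrt (Real.logb 2 (Fintype.card K) * t) +
        Real.logb 2 ((2 * B ^ 2 : ℕ) : ℝ)) * ((w * s : ℕ) : ℝ) := by
    rcases hF with hF | hF
    · exact main f hF h
    · exact main (fun x => !f x) (approximates_not hF) (fun i hi => asks_not (h i hi))
  rw [hLB] at h1
  refine h1.trans (le_of_eq ?_)
  push_cast
  ring

end Pool.Agent.Run7.h412.SP
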